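import Pool.Agent.H635.PT.Gbc

/-!
# MP_878529_lc, Q1: preservation of separation implies the forcing theorem

Let `(M, C)` be a countable transitive model of `GBC`, and let `P` be a notion of class forcing
that preserves the scheme of separation. Then `P` is pretame, and hence the forcing theorem holds.

Sketch. Assume that `P` is not pretame: there are a set `I` and a sequence `(D i)`, `i ∈ I`, of
classes that are dense below `p` such that there is no `q ≤ p` with sets `d i ⊆ D i` in `M` that
are predense below `q`. Let `G` be a generic filter that contains `p`.

* Call the first element of `D i ∩ G`, with respect to the rank and the global well-order, the
  canonical one. By recursion on the ordinals all the pairs `(q, σ)` of a condition `q ≤ p` and a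
  name `σ` in `M` are served: at each stage less than the whole class has been used, and there is
  `i ∈ I` such that the elements of `D i` that are canonical for some generic filter containing `q`
  are unbounded in rank; one of them that has no label yet gets the label `σ`. It is definable
  which conditions ensure that `d` is the canonical element of `D i ∩ G` (the condition is below
  `d` and incompatible with all elements of `D i` before `d`), so that no instance of the forcing
  theorem is needed.
* There is a class name whose value is the function `F` that maps `i ∈ I` to the value of the label
  of the canonical element of `D i ∩ G`. By genericity all elements of `M[G]` are values of `F`.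
* By separation the set `{i ∈ I : i ∉ F i}` is in `M[G]`, hence it is `F i` for some `i`, a
  contradiction.

For the forcing theorem for pretame class forcings one uses systems: sets of conditions that
decide the equality of the names in a set. By pretameness the conditions below which systems exist
are dense, so that the forcing relation for equality is definable. The rest is an induction on
formulas. The files are in `Pool.Agent.H635.PT`: `Base` (definability and recursion in models with
class parameters), `FT` (the forcing theorem from its instance for equality), `Sys` and `PR`
(pretame class forcings), `SP`, `Lab` and `Fin` (preservation of separation implies pretameness),
`Gbc` (models of `GBC`).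

The definitions of names and their values, generic filters, formulas and truth, notions of class
forcing and the forcing theorem are those of `Pool.Graph.R_seed8.R597.GBDefs` and the files that it
imports. The definitions of `IsGBC`, `WO` (in `IsGBC`), `PreservesSeparation` and `Pretame` are in
`Pool.Agent.H635.PT.Gbc`, `SP`, `Fin` and `PR`, respectively.
-/

set_option autoImplicit false

namespace Pool.Agent.Results.MP_878529_lc.SeparationForcingTheorem

open Pool.Agent.R597 Pool.Agent.H635.PT

/-- For all countable transitive models `(M, C)` of `GBC` and all notions of class forcing `P` for
`(M, C)`: if `P` preserves separation, then `P` is pretame and satisfies the forcing theorem. -/
theorem result : ∀ M C P Le : ZFSet.{0}, {X | X ∈ C}.Countable → IsGBC M C →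
    IsClassForcing C P Le → PreservesSeparation M C P Le →
      Pretame M C P Le ∧ ForcingThm M C P Le := by
  intro M C P Le hc h hP hS
  obtain ⟨W, hW⟩ := h.wellorder
  exact ⟨pretame_of_sep (h.cx hc hP) hW hS, main hc h hP hS⟩

end Pool.Agent.Results.MP_878529_lc.SeparationForcingTheorem
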